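import Pool.Agent.H36.LD.Smooth

/-!
# LD Abel: summation by parts
-/

set_option autoImplicit false

namespace Pool.Agent.H36.LD

open Pool.Agent.H96.KMF Finset

theorem opt_union (k : ℕ) (S T : Finset ℕ) : opt k (S ∪ T) ≤ opt k S + opt k T := by
  classical
  obtain ⟨A, hA, hAf, hAc⟩ := exists_opt k (S ∪ T)
  rw [← hAc]
  have h1 : A = (A ∩ S) ∪ (A ∩ T) := by
    rw [← Finset.inter_union_distrib_left]
    exact (Finset.inter_eq_left.2 hA).symm
  calc A.card ≤ (A ∩ S).card + (A ∩ T).card := by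
        conv_lhs => rw [h1]
        exact Finset.card_union_le _ _
    _ ≤ opt k S + opt k T := Nat.add_le_add
        (le_opt Finset.inter_subset_right (hAf.subset Finset.inter_subset_left))
        (le_opt Finset.inter_subset_right (hAf.subset Finset.inter_subset_left))

/-- the values -/
noncomputable def hh (k M j : ℕ) : ℕ := opt k (cell (PP M) M j)

theorem hh_zero (k M : ℕ) : hh k M 0 = 0 := by
  have h1 : cell (PP M) M 0 = ∅ := by
    rw [eq_empty_iff_forall_notMem]
    intro s hs
    rw [mem_cell] at hs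
    omega
  have h2 := opt_le_card k (cell (PP M) M 0)
  rw [h1] at h2
  unfold hh
  rw [h1]
  simpa using h2

/-- the differences -/
noncomputable def dd (k M i : ℕ) : ℝ := (hh k M i : ℝ) - hh k M (i - 1)

open Classical in
/-- the weights -/
noncomputable def ww (M i : ℕ) : ℝ := (if Smo (PP M) i then 1 else 0) + (if M ∣ i ∧ Smo (PP M) (i / M) then 1 else 0)

theorem ww_nonneg (M i : ℕ) : 0 ≤ ww M i := by
  classical
  unfold ww
  refine add_nonneg ?_ ?_
  · split_ifs <;> norm_num
  · split_ifs <;> norm_num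

theorem ww_le_two (M i : ℕ) : ww M i ≤ 2 := by
  classical
  unfold ww
  have h1 : (if Smo (PP M) i then (1 : ℝ) else 0) ≤ 1 := by split_ifs <;> norm_num
  have h2 : (if M ∣ i ∧ Smo (PP M) (i / M) then (1 : ℝ) else 0) ≤ 1 := by split_ifs <;> norm_num
  linarith

theorem dd_le (k M i : ℕ) (hM : 1 ≤ M) (hi : 1 ≤ i) : |dd k M i| ≤ ww M i := by
  classical
  have h1 : cell (PP M) M i ⊆ cell (PP M) M (i - 1) ∪ (if Smo (PP M) i then {i} else ∅) := by
    intro s hs
    rw [mem_union, mem_cell]
    rw [mem_cell] at hs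
    by_cases h : s = i
    · right
      rw [h] at hs
      rw [if_pos hs.2.1, h]
      exact mem_singleton_self i
    · left
      exact ⟨⟨hs.1.1, by omega⟩, hs.2.1, by omega⟩
  have h2 : cell (PP M) M (i - 1) ⊆ cell (PP M) M i ∪ (if M ∣ i ∧ Smo (PP M) (i / M) then {i / M} else ∅) := by
    intro s hs
    rw [mem_union, mem_cell]
    rw [mem_cell] at hs
    by_cases h : i < s * M
    · left
      exact ⟨⟨hs.1.1, by omega⟩, hs.2.1, h⟩
    · right
      have h3 : s * M = i := by omega
      have h4 : i / M = s := by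
        rw [← h3]
        exact Nat.mul_div_cancel _ (by omega)
      rw [if_pos ⟨Dvd.intro_left s h3, by rw [h4]; exact hs.2.1⟩, h4]
      exact mem_singleton_self s
  have h3 : (hh k M i : ℝ) ≤ hh k M (i - 1) + (if Smo (PP M) i then (1 : ℝ) else 0) := by
    have h4 := (opt_mono k h1).trans (opt_union k _ _)
    have h5 : (opt k (if Smo (PP M) i then ({i} : Finset ℕ) else ∅) : ℝ) ≤ if Smo (PP M) i then (1 : ℝ) else 0 := by
      split_ifs
      · have := opt_le_card k ({i} : Finset ℕ)
        rw [card_singleton] at this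
        exact_mod_cast this
      · have := opt_le_card k (∅ : Finset ℕ)
        rw [card_empty] at this
        exact_mod_cast this
    have h6 : (hh k M i : ℝ) ≤ hh k M (i - 1) + (opt k (if Smo (PP M) i then ({i} : Finset ℕ) else ∅) : ℝ) := by
      unfold hh
      exact_mod_cast h4
    linarith
  have h4 : (hh k M (i - 1) : ℝ) ≤ hh k M i + (if M ∣ i ∧ Smo (PP M) (i / M) then (1 : ℝ) else 0) := by
    have h4 := (opt_mono k h2).trans (opt_union k _ _)
    have h5 : (opt k (if M ∣ i ∧ Smo (PP M) (i / M) then ({i / M} : Finset ℕ) else ∅) : ℝ) ≤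
        if M ∣ i ∧ Smo (PP M) (i / M) then (1 : ℝ) else 0 := by
      split_ifs
      · have := opt_le_card k ({i / M} : Finset ℕ)
        rw [card_singleton] at this
        exact_mod_cast this
      · have := opt_le_card k (∅ : Finset ℕ)
        rw [card_empty] at this
        exact_mod_cast this
    have h6 : (hh k M (i - 1) : ℝ) ≤ hh k M i + (opt k (if M ∣ i ∧ Smo (PP M) (i / M) then ({i / M} : Finset ℕ) else ∅) : ℝ) := by
      unfold hh
      exact_mod_cast h4
    linarith
  have h5 : (0 : ℝ) ≤ if Smo (PP M) i then (1 : ℝ) else 0 := by split_ifs <;> norm_num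
  have h6 : (0 : ℝ) ≤ if M ∣ i ∧ Smo (PP M) (i / M) then (1 : ℝ) else 0 := by split_ifs <;> norm_num
  unfold dd ww
  rw [abs_le]
  constructor <;> linarith

/-- the number of the `m ≤ y` prime to `P` -/
noncomputable def ph (M y : ℕ) : ℝ := ((rgh (PP M) y).card : ℝ)

theorem ph_le (M y : ℕ) : ph M y ≤ y := by
  unfold ph rgh
  have := card_filter_le (Icc 1 y) (fun m => Nat.Coprime (PP M) m)
  rw [Nat.card_Icc, Nat.add_sub_cancel] at this
  exact_mod_cast this

theorem ph_nonneg (M y : ℕ) : 0 ≤ ph M y := Nat.cast_nonneg _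

theorem sum_dd (k M j : ℕ) : ∑ i ∈ Icc 1 j, dd k M i = hh k M j := by
  induction j with
  | zero => simp [hh_zero]
  | succ j ih =>
    rw [sum_Icc_succ_top (by omega), ih]
    unfold dd
    rw [Nat.add_sub_cancel]
    ring

theorem gg_eq (k M n N : ℕ) (hN : n ≤ N) : (GG k (PP M) M n : ℝ) = ∑ i ∈ Icc 1 N, dd k M i * ph M (n / i) := by
  classical
  have h1 : (GG k (PP M) M n : ℝ) = ∑ m ∈ rgh (PP M) n, ∑ i ∈ Icc 1 N, if i ≤ n / m then dd k M i else 0 := by
    unfold GG
    push_cast
    refine sum_congr rfl fun m hm => ?_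
    have h2 : (opt k (cell (PP M) M (n / m)) : ℝ) = hh k M (n / m) := rfl
    rw [h2, ← sum_dd, ← sum_filter]
    refine sum_congr ?_ fun _ _ => rfl
    ext i
    rw [mem_filter, mem_Icc, mem_Icc]
    have h3 : n / m ≤ n := Nat.div_le_self n m
    constructor
    · rintro ⟨a, b⟩
      exact ⟨⟨a, by omega⟩, b⟩
    · rintro ⟨⟨a, _⟩, b⟩
      exact ⟨a, b⟩
  rw [h1, sum_comm]
  refine sum_congr rfl fun i hi => ?_
  rw [mem_Icc] at hi
  rw [← sum_filter, sum_const, nsmul_eq_mul, mul_comm]
  congr 1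
  unfold ph
  congr 2
  ext m
  rw [mem_filter, mem_rgh, mem_rgh]
  constructor
  · rintro ⟨⟨⟨a, b⟩, c⟩, d⟩
    rw [Nat.le_div_iff_mul_le (by omega)] at d
    refine ⟨⟨a, ?_⟩, c⟩
    rw [Nat.le_div_iff_mul_le (by omega), mul_comm]
    exact d
  · rintro ⟨⟨a, b⟩, c⟩
    rw [Nat.le_div_iff_mul_le (by omega)] at b
    refine ⟨⟨⟨a, ?_⟩, c⟩, ?_⟩
    · exact (Nat.le_mul_of_pos_right m (by omega)).trans b
    · rw [Nat.le_div_iff_mul_le (by omega), mul_comm]
      exact b

end Pool.Agent.H36.LD
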