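import Pool.Agent.H96.KMF.Quant

/-!
# LD Brun: the number of the integers up to `y` without prime factors below `M`
-/

set_option autoImplicit false

namespace Pool.Agent.H36.LD

open Pool.Agent.H96.KMF Finset

/-- the density of the integers without prime factors below `M` -/
noncomputable def rho (M : ℕ) : ℝ := ∏ p ∈ Nat.primesBelow M, (1 - 1 / (p : ℝ))

theorem pb_two {M p : ℕ} (hp : p ∈ Nat.primesBelow M) : (2 : ℝ) ≤ p := by
  exact_mod_cast (Nat.prime_of_mem_primesBelow hp).two_le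

theorem rho_pos (M : ℕ) : 0 < rho M := by
  refine prod_pos fun p hp => ?_
  have h := pb_two hp
  have h1 : 1 / (p : ℝ) < 1 := by
    rw [div_lt_one (by linarith)]
    linarith
  linarith

theorem rho_le_one (M : ℕ) : rho M ≤ 1 := by
  refine prod_le_one (fun p hp => ?_) (fun p hp => ?_)
  · have h := pb_two hp
    have h1 : 1 / (p : ℝ) < 1 := by
      rw [div_lt_one (by linarith)]
      linarith
    linarith
  · have h := pb_two hp
    have h1 : 0 ≤ 1 / (p : ℝ) := by positivity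
    linarith

/-- `1 / rho M ≤ M` -/
theorem one_le_mul_rho {M : ℕ} (hM : 2 ≤ M) : 1 ≤ (M : ℝ) * rho M := by
  have key : ∀ K : ℕ, 1 ≤ ((K + 1 : ℕ) : ℝ) * rho (K + 2) := by
    intro K
    induction K with
    | zero =>
      have : Nat.primesBelow 2 = ∅ := by decide
      unfold rho
      rw [show 0 + 2 = 2 by norm_num, this]
      simp
    | succ K ih =>
      have h1 : rho (K + 1 + 2) = if (K + 2).Prime then (1 - 1 / ((K + 2 : ℕ) : ℝ)) * rho (K + 2) else rho (K + 2) := by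
        unfold rho
        rw [show K + 1 + 2 = (K + 2) + 1 by ring, Nat.primesBelow_succ]
        split_ifs with h
        · rw [prod_insert (by simp [Nat.mem_primesBelow])]
        · rfl
      have h2 := rho_pos (K + 2)
      rw [h1]
      push_cast at ih ⊢
      have hK : (0 : ℝ) ≤ K := Nat.cast_nonneg K
      split_ifs with h
      · have h3 : ((K : ℝ) + 1 + 1) * ((1 - 1 / ((K : ℝ) + 2)) * rho (K + 2)) = ((K : ℝ) + 1) * rho (K + 2) := by
          have : (K : ℝ) + 2 ≠ 0 := by positivity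
          field_simp
          ring
        rw [h3]
        exact ih
      · nlinarith
  obtain ⟨K, rfl⟩ : ∃ K, M = K + 2 := ⟨M - 2, by omega⟩
  have h1 := key K
  have h2 := rho_pos (K + 2)
  push_cast at h1 ⊢
  nlinarith

theorem prod_two_le {M : ℕ} (hM : 2 ≤ M) : ∏ p ∈ Nat.primesBelow M, (1 + 2 * (1 / (p : ℝ))) ≤ (M : ℝ) ^ 2 := by
  have h1 : (∏ p ∈ Nat.primesBelow M, (1 + 2 * (1 / (p : ℝ)))) * rho M ^ 2 ≤ 1 := by
    unfold rho
    rw [← prod_pow, ← prod_mul_distrib]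
    refine prod_le_one (fun p hp => by positivity) (fun p hp => ?_)
    have h := pb_two hp
    have hx : 0 ≤ 1 / (p : ℝ) := by positivity
    have hx2 : 1 / (p : ℝ) ≤ 1 / 2 := one_div_le_one_div_of_le (by norm_num) h
    nlinarith [mul_nonneg hx hx, mul_nonneg (mul_nonneg hx hx) hx, mul_nonneg (mul_nonneg hx hx) (by linarith : 0 ≤ 1 - 1 / (p : ℝ))]
  have h2 := one_le_mul_rho hM
  have h3 := rho_pos M
  have h4 : 0 ≤ ∏ p ∈ Nat.primesBelow M, (1 + 2 * (1 / (p : ℝ))) := prod_nonneg fun p hp => by positivity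
  have h5 : 1 ≤ ((M : ℝ) * rho M) ^ 2 := one_le_pow₀ h2
  calc ∏ p ∈ Nat.primesBelow M, (1 + 2 * (1 / (p : ℝ))) ≤ (∏ p ∈ Nat.primesBelow M, (1 + 2 * (1 / (p : ℝ)))) * ((M : ℝ) * rho M) ^ 2 :=
        le_mul_of_one_le_right h4 h5
    _ = (M : ℝ) ^ 2 * ((∏ p ∈ Nat.primesBelow M, (1 + 2 * (1 / (p : ℝ)))) * rho M ^ 2) := by ring
    _ ≤ (M : ℝ) ^ 2 * 1 := mul_le_mul_of_nonneg_left h1 (by positivity)
    _ = _ := mul_one _

/-- large subsets -/
theorem big_subsets {M : ℕ} (hM : 2 ≤ M) (r : ℕ) :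
    ∑ T ∈ (Nat.primesBelow M).powerset.filter (fun T => r < T.card), ∏ p ∈ T, (1 / (p : ℝ)) ≤ (M : ℝ) ^ 2 / 2 ^ r := by
  have h1 : ∑ T ∈ (Nat.primesBelow M).powerset, ∏ p ∈ T, (2 * (1 / (p : ℝ))) ≤ (M : ℝ) ^ 2 := by
    rw [← prod_one_add]
    exact prod_two_le hM
  rw [le_div_iff₀ (by positivity), sum_mul]
  refine le_trans ?_ h1
  refine le_trans (sum_le_sum (g := fun T : Finset ℕ => ∏ p ∈ T, (2 * (1 / (p : ℝ)))) fun T hT => ?_)
    (sum_le_sum_of_subset_of_nonneg (filter_subset _ _) fun T _ _ => prod_nonneg fun p _ => by positivity)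
  rw [mem_filter] at hT
  rw [prod_mul_distrib, prod_const, mul_comm]
  refine mul_le_mul_of_nonneg_right ?_ (prod_nonneg fun p _ => by positivity)
  exact pow_le_pow_right₀ (by norm_num) hT.2.le

/-- the number of the small subsets -/
theorem small_subsets {M : ℕ} (hM : 2 ≤ M) (r : ℕ) :
    (((Nat.primesBelow M).powerset.filter (fun T => ¬ r < T.card)).card : ℝ) ≤ 3 * (M : ℝ) ^ r := by
  have hM0 : (0 : ℝ) < M := by
    have : 0 < M := by omega
    exact_mod_cast this
  have hM1 : (1 : ℝ) ≤ M := by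
    have : 1 ≤ M := by omega
    exact_mod_cast this
  have h1 : ∑ T ∈ (Nat.primesBelow M).powerset, ∏ p ∈ T, (1 / (M : ℝ)) ≤ 3 := by
    rw [← prod_one_add, prod_const]
    have h2 : (Nat.primesBelow M).card ≤ M := by
      refine (card_le_card (filter_subset _ _)).trans ?_
      rw [card_range]
    calc (1 + 1 / (M : ℝ)) ^ (Nat.primesBelow M).card ≤ (1 + 1 / (M : ℝ)) ^ M :=
          pow_le_pow_right₀ (by have : 0 < 1 / (M : ℝ) := by positivity
                                linarith) h2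
      _ ≤ (Real.exp (1 / (M : ℝ))) ^ M := by
          refine pow_le_pow_left₀ (by positivity) ?_ M
          rw [add_comm]
          exact Real.add_one_le_exp _
      _ = Real.exp 1 := by
          rw [← Real.exp_nat_mul, mul_one_div_cancel hM0.ne']
      _ ≤ 3 := by
          have := Real.exp_one_lt_d9
          linarith
  have h3 : (((Nat.primesBelow M).powerset.filter (fun T => ¬ r < T.card)).card : ℝ) / (M : ℝ) ^ r ≤
      ∑ T ∈ (Nat.primesBelow M).powerset, ∏ p ∈ T, (1 / (M : ℝ)) := by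
    rw [div_eq_mul_inv, ← nsmul_eq_mul, ← sum_const]
    refine le_trans (sum_le_sum (g := fun T : Finset ℕ => ∏ p ∈ T, (1 / (M : ℝ))) fun T hT => ?_)
      (sum_le_sum_of_subset_of_nonneg (filter_subset _ _) fun T _ _ => prod_nonneg fun p _ => by positivity)
    rw [mem_filter, not_lt] at hT
    rw [prod_const, one_div, inv_pow]
    exact inv_anti₀ (by positivity) (pow_le_pow_right₀ hM1 hT.2)
  have h4 := h3.trans h1
  rw [div_le_iff₀ (by positivity)] at h4
  exact h4

/-- multiples of a product of primes -/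
theorem card_mult {M : ℕ} {T : Finset ℕ} (hT : T ⊆ Nat.primesBelow M) (y : ℕ) :
    ((Icc 1 y).filter (fun m => ∀ p ∈ T, p ∣ m)).card = y / ∏ p ∈ T, p := by
  have h1 : (Icc 1 y).filter (fun m => ∀ p ∈ T, p ∣ m) = (Ioc 0 y).filter (fun m => (∏ p ∈ T, p) ∣ m) := by
    ext m
    rw [mem_filter, mem_filter, mem_Icc, mem_Ioc]
    refine and_congr (by omega) ?_
    constructor
    · intro h
      refine prod_primes_dvd m (fun p hp => (Nat.prime_of_mem_primesBelow (hT hp)).prime) h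
    · intro h p hp
      exact (dvd_prod_of_mem _ hp).trans h
  rw [h1, Nat.Ioc_filter_dvd_card_eq_div]

theorem coprime_PP {M m : ℕ} : Nat.Coprime (PP M) m ↔ ∀ p ∈ Nat.primesBelow M, ¬ p ∣ m := by
  unfold PP
  rw [Nat.coprime_prod_left_iff]
  refine forall₂_congr fun p hp => ?_
  exact (Nat.prime_of_mem_primesBelow hp).coprime_iff_not_dvd

/-- Legendre's formula -/
theorem legendre (M y : ℕ) : ((rgh (PP M) y).card : ℝ) =
    ∑ T ∈ (Nat.primesBelow M).powerset, (-1 : ℝ) ^ T.card * ((y / ∏ p ∈ T, p : ℕ) : ℝ) := by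
  classical
  have h1 : ((rgh (PP M) y).card : ℝ) = ∑ m ∈ Icc 1 y, ∏ p ∈ Nat.primesBelow M, (1 + (if p ∣ m then (-1 : ℝ) else 0)) := by
    unfold rgh
    rw [card_eq_sum_ones, sum_filter]
    push_cast
    refine sum_congr rfl fun m _ => ?_
    by_cases h : Nat.Coprime (PP M) m
    · rw [if_pos h]
      rw [coprime_PP] at h
      rw [prod_congr rfl fun p hp => by rw [if_neg (h p hp), add_zero], prod_const_one]
    · rw [if_neg h]
      rw [coprime_PP] at h
      push Not at h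
      obtain ⟨p, hp, hd⟩ := h
      rw [prod_eq_zero hp]
      rw [if_pos hd]
      norm_num
  rw [h1]
  simp_rw [prod_one_add]
  rw [sum_comm]
  refine sum_congr rfl fun T hT => ?_
  rw [mem_powerset] at hT
  rw [← card_mult hT y, card_filter]
  push_cast
  rw [mul_sum]
  refine sum_congr rfl fun m _ => ?_
  by_cases h : ∀ p ∈ T, p ∣ m
  · rw [if_pos h, prod_congr rfl fun p hp => if_pos (h p hp), prod_const, mul_one]
  · rw [if_neg h, mul_zero]
    push Not at h
    obtain ⟨p, hp, hd⟩ := h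
    exact prod_eq_zero hp (if_neg hd)

/-- Brun's pure sieve -/
theorem brun {M : ℕ} (hM : 2 ≤ M) (r y : ℕ) :
    |((rgh (PP M) y).card : ℝ) - rho M * y| ≤ y * ((M : ℝ) ^ 2 / 2 ^ r) + 3 * (M : ℝ) ^ r := by
  classical
  have hrho : rho M * y = ∑ T ∈ (Nat.primesBelow M).powerset, (-1 : ℝ) ^ T.card * (y * ∏ p ∈ T, (1 / (p : ℝ))) := by
    have h1 : rho M = ∏ p ∈ Nat.primesBelow M, (1 + (-1) * (1 / (p : ℝ))) := by
      unfold rho
      refine prod_congr rfl fun p _ => ?_
      ring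
    rw [h1, prod_one_add, sum_mul]
    refine sum_congr rfl fun T _ => ?_
    rw [prod_mul_distrib, prod_const]
    ring
  rw [legendre, hrho, ← sum_sub_distrib]
  refine (abs_sum_le_sum_abs _ _).trans ?_
  have key : ∀ T ∈ (Nat.primesBelow M).powerset,
      |(-1 : ℝ) ^ T.card * ((y / ∏ p ∈ T, p : ℕ) : ℝ) - (-1 : ℝ) ^ T.card * (y * ∏ p ∈ T, (1 / (p : ℝ)))| ≤
      if r < T.card then y * ∏ p ∈ T, (1 / (p : ℝ)) else 1 := by
    intro T hT
    rw [mem_powerset] at hT
    have hd0 : 0 < ∏ p ∈ T, p := prod_pos fun p hp => (Nat.prime_of_mem_primesBelow (hT hp)).pos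
    have hd : (0 : ℝ) < ((∏ p ∈ T, p : ℕ) : ℝ) := by exact_mod_cast hd0
    have h1 : (y : ℝ) * ∏ p ∈ T, (1 / (p : ℝ)) = (y : ℝ) / ((∏ p ∈ T, p : ℕ) : ℝ) := by
      rw [prod_div_distrib, prod_const_one, Nat.cast_prod, mul_one_div]
    rw [← mul_sub, abs_mul, abs_pow, abs_neg, abs_one, one_pow, one_mul, h1]
    have h2 : ((y / ∏ p ∈ T, p : ℕ) : ℝ) ≤ (y : ℝ) / ((∏ p ∈ T, p : ℕ) : ℝ) := Nat.cast_div_le
    have h3 : (y : ℝ) / ((∏ p ∈ T, p : ℕ) : ℝ) < ((y / ∏ p ∈ T, p : ℕ) : ℝ) + 1 := by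
      rw [div_lt_iff₀ hd]
      have h4 := Nat.lt_mul_div_succ y hd0
      have h5 : ((y : ℕ) : ℝ) < ((∏ p ∈ T, p : ℕ) : ℝ) * (((y / ∏ p ∈ T, p : ℕ) : ℝ) + 1) := by exact_mod_cast h4
      linarith
    have h6 : (0 : ℝ) ≤ ((y / ∏ p ∈ T, p : ℕ) : ℝ) := Nat.cast_nonneg _
    rw [abs_sub_comm, abs_of_nonneg (by linarith)]
    split_ifs
    · linarith
    · linarith
  refine (sum_le_sum key).trans ?_
  rw [sum_ite, sum_const, nsmul_eq_mul, mul_one, ← mul_sum]
  refine add_le_add ?_ (small_subsets hM r)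
  exact mul_le_mul_of_nonneg_left (big_subsets hM r) (Nat.cast_nonneg y)

end Pool.Agent.H36.LD
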