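import Pool.Agent.H36.LD.Abel

/-!
# LD Comb: the main sums for different `n` compared
-/

set_option autoImplicit false

namespace Pool.Agent.H36.LD

open Pool.Agent.H96.KMF Finset

open Classical in
theorem ww_sum (M : ℕ) (hM : 2 ≤ M) (I : Finset ℕ) (hI : ∀ i ∈ I, 1 ≤ i) :
    ∑ i ∈ I, ww M i / i ≤ ∑ s ∈ I.filter (fun i => Smo (PP M) i), 1 / (s : ℝ) +
      ∑ s ∈ (I.filter (fun i => M ∣ i ∧ Smo (PP M) (i / M))).image (fun i => i / M), 1 / (s : ℝ) := by
  have h1 : ∑ i ∈ I, ww M i / i = ∑ i ∈ I.filter (fun i => Smo (PP M) i), 1 / (i : ℝ) +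
      ∑ i ∈ I.filter (fun i => M ∣ i ∧ Smo (PP M) (i / M)), 1 / (i : ℝ) := by
    rw [sum_filter, sum_filter, ← sum_add_distrib]
    refine sum_congr rfl fun i _ => ?_
    unfold ww
    rw [add_div, ite_div, ite_div, zero_div]
  rw [h1]
  refine add_le_add le_rfl ?_
  rw [sum_image]
  · refine sum_le_sum fun i hi => ?_
    rw [mem_filter] at hi
    obtain ⟨s, hs⟩ := hi.2.1
    have hi1 := hI i hi.1
    have h2 : i / M = s := by
      rw [hs]
      exact Nat.mul_div_cancel_left s (by omega)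
    have h3 : 1 ≤ s := by
      rcases Nat.eq_zero_or_pos s with h | h
      · rw [h, mul_zero] at hs
        omega
      · exact h
    rw [h2]
    refine one_div_le_one_div_of_le (by exact_mod_cast h3) ?_
    rw [hs]
    exact_mod_cast Nat.le_mul_of_pos_left s (by omega)
  · intro a ha b hb hab
    have ha' := (mem_filter.1 (mem_coe.1 ha)).2.1
    have hb' := (mem_filter.1 (mem_coe.1 hb)).2.1
    have hab' : a / M = b / M := hab
    rw [← Nat.mul_div_cancel' ha', ← Nat.mul_div_cancel' hb', hab']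

theorem ww_sum_le (M : ℕ) (hM : 2 ≤ M) (I : Finset ℕ) (hI : ∀ i ∈ I, 1 ≤ i) : ∑ i ∈ I, ww M i / i ≤ 2 * M := by
  classical
  refine (ww_sum M hM I hI).trans ?_
  have h1 := smooth_sum hM (I.filter (fun i => Smo (PP M) i)) (fun s hs => (mem_filter.1 hs).2)
  have h2 := smooth_sum hM ((I.filter (fun i => M ∣ i ∧ Smo (PP M) (i / M))).image (fun i => i / M)) (fun s hs => by
    obtain ⟨i, hi, rfl⟩ := mem_image.1 hs
    exact (mem_filter.1 hi).2.2)
  linarith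

theorem ww_tail_le (M u : ℕ) (hM : 2 ≤ M) (I : Finset ℕ) (hI : ∀ i ∈ I, M ^ (u + 1) < i) :
    ∑ i ∈ I, ww M i / i ≤ 2 * ((M : ℝ) ^ 2 * (2 / 3) ^ u) := by
  classical
  have hM0 : 0 < M := by omega
  refine (ww_sum M hM I (fun i hi => lt_of_le_of_lt (Nat.zero_le _) (hI i hi))).trans ?_
  have h1 := smooth_tail hM u (I.filter (fun i => Smo (PP M) i)) (fun s hs => ⟨(mem_filter.1 hs).2, by
    have h3 := hI s (mem_filter.1 hs).1
    have h4 : M ^ u ≤ M ^ (u + 1) := Nat.pow_le_pow_right hM0 (Nat.le_succ u)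
    omega⟩)
  have h2 := smooth_tail hM u ((I.filter (fun i => M ∣ i ∧ Smo (PP M) (i / M))).image (fun i => i / M)) (fun s hs => by
    obtain ⟨i, hi, rfl⟩ := mem_image.1 hs
    rw [mem_filter] at hi
    refine ⟨hi.2.2, ?_⟩
    rw [Nat.le_div_iff_mul_le hM0, ← pow_succ]
    exact (hI i hi.1).le)
  linarith

theorem est {M : ℕ} (hM : 2 ≤ M) (r n i : ℕ) (hn : 1 ≤ n) (hi : 1 ≤ i) :
    |ph M (n / i) / n - rho M / i| ≤ (M : ℝ) ^ 2 / 2 ^ r * (1 / i) + 4 * (M : ℝ) ^ r / n := by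
  have hn0 : (0 : ℝ) < n := by exact_mod_cast hn
  have hi0 : (0 : ℝ) < i := by exact_mod_cast hi
  have hM1 : (1 : ℝ) ≤ (M : ℝ) ^ r := one_le_pow₀ (by
    have : 1 ≤ M := by omega
    exact_mod_cast this)
  have h1 := brun hM r (n / i)
  have h2 : ((n / i : ℕ) : ℝ) ≤ (n : ℝ) / i := Nat.cast_div_le
  have h3 : (n : ℝ) / i < ((n / i : ℕ) : ℝ) + 1 := by
    rw [div_lt_iff₀ hi0]
    have h4 := Nat.lt_mul_div_succ n (show 0 < i from hi)
    have h5 : ((n : ℕ) : ℝ) < (i : ℝ) * (((n / i : ℕ) : ℝ) + 1) := by exact_mod_cast h4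
    linarith
  have h4 := rho_le_one M
  have h5 := rho_pos M
  have h6 : 0 ≤ (M : ℝ) ^ 2 / 2 ^ r := by positivity
  have h7 : ph M (n / i) / n - rho M / i = (ph M (n / i) - rho M * (n / i)) / n := by
    field_simp
  rw [h7, abs_div, abs_of_pos hn0, div_le_iff₀ hn0]
  have h8 : ((M : ℝ) ^ 2 / 2 ^ r * (1 / i) + 4 * (M : ℝ) ^ r / n) * n = (n : ℝ) / i * ((M : ℝ) ^ 2 / 2 ^ r) + 4 * (M : ℝ) ^ r := by
    field_simp
  rw [h8]
  have h9 : |rho M * ((n / i : ℕ) : ℝ) - rho M * ((n : ℝ) / i)| ≤ 1 := by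
    rw [← mul_sub, abs_mul, abs_of_pos h5, abs_sub_comm, abs_of_nonneg (by linarith)]
    nlinarith
  have h10 : |ph M (n / i) - rho M * ((n : ℝ) / i)| ≤ |ph M (n / i) - rho M * ((n / i : ℕ) : ℝ)| +
      |rho M * ((n / i : ℕ) : ℝ) - rho M * ((n : ℝ) / i)| := abs_sub_le _ _ _
  have h11 : ((n / i : ℕ) : ℝ) * ((M : ℝ) ^ 2 / 2 ^ r) ≤ (n : ℝ) / i * ((M : ℝ) ^ 2 / 2 ^ r) := mul_le_mul_of_nonneg_right h2 h6
  have h12 : |ph M (n / i) - rho M * ((n / i : ℕ) : ℝ)| ≤ ((n / i : ℕ) : ℝ) * ((M : ℝ) ^ 2 / 2 ^ r) + 3 * (M : ℝ) ^ r := h1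
  linarith

theorem ph_div_le (M n i : ℕ) (hn : 1 ≤ n) (hi : 1 ≤ i) : 0 ≤ ph M (n / i) / n ∧ ph M (n / i) / n ≤ 1 / i := by
  have hn0 : (0 : ℝ) < n := by exact_mod_cast hn
  have hi0 : (0 : ℝ) < i := by exact_mod_cast hi
  refine ⟨div_nonneg (ph_nonneg _ _) hn0.le, ?_⟩
  rw [div_le_iff₀ hn0, one_div_mul_eq_div]
  exact (ph_le M (n / i)).trans Nat.cast_div_le

theorem comb (k M r u n N : ℕ) (hM : 2 ≤ M) (hn : 1 ≤ n) (hN : n ≤ N) :
    |(GG k (PP M) M n : ℝ) / n - (GG k (PP M) M N : ℝ) / N| ≤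
      4 * (M : ℝ) ^ 3 / 2 ^ r + 16 * (M : ℝ) ^ (u + 1 + r) / n + 2 * ((M : ℝ) ^ 2 * (2 / 3) ^ u) := by
  classical
  have hn0 : (0 : ℝ) < n := by exact_mod_cast hn
  have hN0 : (0 : ℝ) < N := by exact_mod_cast hn.trans hN
  have hNn : (n : ℝ) ≤ N := by exact_mod_cast hN
  have e1 : (GG k (PP M) M n : ℝ) / n - (GG k (PP M) M N : ℝ) / N =
      ∑ i ∈ Icc 1 N, dd k M i * (ph M (n / i) / n - ph M (N / i) / N) := by
    rw [gg_eq k M n N hN, gg_eq k M N N le_rfl, sum_div, sum_div, ← sum_sub_distrib]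
    refine sum_congr rfl fun i _ => ?_
    ring
  rw [e1]
  refine (abs_sum_le_sum_abs _ _).trans ?_
  set J := M ^ (u + 1) with hJ
  set B : ℝ := 2 * ((M : ℝ) ^ 2 / 2 ^ r) with hB
  set C : ℝ := 8 * (M : ℝ) ^ r / n with hC
  have hC0 : 0 ≤ C := by positivity
  have hB0 : 0 ≤ B := by positivity
  have key : ∀ i ∈ Icc 1 N, |dd k M i * (ph M (n / i) / n - ph M (N / i) / N)| ≤
      if i ≤ J then B * (ww M i / i) + 2 * C else ww M i / i := by
    intro i hi
    rw [mem_Icc] at hi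
    have hi0 : (0 : ℝ) < i := by exact_mod_cast hi.1
    have h1 := dd_le k M i (by omega) hi.1
    have h0 := ww_nonneg M i
    rw [abs_mul]
    refine (mul_le_mul_of_nonneg_right h1 (abs_nonneg _)).trans ?_
    split_ifs with h
    · have h2 := est hM r n i hn hi.1
      have h3 := est hM r N i (hn.trans hN) hi.1
      have h4 : 4 * (M : ℝ) ^ r / N ≤ 4 * (M : ℝ) ^ r / n := div_le_div_of_nonneg_left (by positivity) hn0 hNn
      have h5 : |ph M (n / i) / n - ph M (N / i) / N| ≤ |ph M (n / i) / n - rho M / i| + |ph M (N / i) / N - rho M / i| := by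
        have := abs_sub_le (ph M (n / i) / n) (rho M / i) (ph M (N / i) / N)
        rwa [abs_sub_comm (rho M / i) _] at this
      have h6 : |ph M (n / i) / n - ph M (N / i) / N| ≤ B * (1 / i) + C := by
        have h7 : B * (1 / i) + C = 2 * ((M : ℝ) ^ 2 / 2 ^ r * (1 / i) + 4 * (M : ℝ) ^ r / n) := by
          rw [hB, hC]
          ring
        rw [h7]
        linarith
      calc ww M i * |ph M (n / i) / n - ph M (N / i) / N| ≤ ww M i * (B * (1 / i) + C) := mul_le_mul_of_nonneg_left h6 h0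
        _ = B * (ww M i / i) + ww M i * C := by ring
        _ ≤ B * (ww M i / i) + 2 * C := by
            have := mul_le_mul_of_nonneg_right (ww_le_two M i) hC0
            linarith
    · obtain ⟨a1, a2⟩ := ph_div_le M n i hn hi.1
      obtain ⟨b1, b2⟩ := ph_div_le M N i (hn.trans hN) hi.1
      have h6 : |ph M (n / i) / n - ph M (N / i) / N| ≤ 1 / i := by
        rw [abs_le]
        constructor <;> linarith
      calc ww M i * |ph M (n / i) / n - ph M (N / i) / N| ≤ ww M i * (1 / i) := mul_le_mul_of_nonneg_left h6 h0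
        _ = ww M i / i := by ring
  refine (sum_le_sum key).trans ?_
  rw [sum_ite, sum_add_distrib, ← mul_sum, sum_const, nsmul_eq_mul]
  have h1 := ww_sum_le M hM ((Icc 1 N).filter (fun i => i ≤ J)) (fun i hi => (mem_Icc.1 (mem_filter.1 hi).1).1)
  have h2 := ww_tail_le M u hM ((Icc 1 N).filter (fun i => ¬ i ≤ J)) (fun i hi => not_le.1 (mem_filter.1 hi).2)
  have h3 : (((Icc 1 N).filter (fun i => i ≤ J)).card : ℝ) ≤ (M : ℝ) ^ (u + 1) := by
    have h4 : (Icc 1 N).filter (fun i => i ≤ J) ⊆ Icc 1 J := by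
      intro i hi
      rw [mem_filter, mem_Icc] at hi
      rw [mem_Icc]
      exact ⟨hi.1.1, hi.2⟩
    have h5 := card_le_card h4
    rw [Nat.card_Icc, Nat.add_sub_cancel, hJ] at h5
    exact_mod_cast h5
  have h4 : B * ∑ i ∈ (Icc 1 N).filter (fun i => i ≤ J), ww M i / i ≤ B * (2 * M) := mul_le_mul_of_nonneg_left h1 hB0
  have h5 : (((Icc 1 N).filter (fun i => i ≤ J)).card : ℝ) * (2 * C) ≤ (M : ℝ) ^ (u + 1) * (2 * C) :=
    mul_le_mul_of_nonneg_right h3 (by positivity)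
  have h6 : B * (2 * M) = 4 * (M : ℝ) ^ 3 / 2 ^ r := by
    rw [hB]
    ring
  have h7 : (M : ℝ) ^ (u + 1) * (2 * C) = 16 * (M : ℝ) ^ (u + 1 + r) / n := by
    rw [hC, pow_add (M : ℝ) (u + 1) r]
    ring
  rw [h6] at h4
  rw [h7] at h5
  linarith

end Pool.Agent.H36.LD
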