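import Pool.Agent.H36.LD.Comb

/-!
# LD Final: the error term
-/

set_option autoImplicit false

namespace Pool.Agent.H36.LD

open Pool.Agent.H96.KMF Finset Filter Topology

theorem gk_le_self (k n : ℕ) : (gk k n : ℝ) ≤ n := by
  have : gk k n ≤ (Finset.Icc 1 n).card := by
    rw [gk_eq_opt]
    exact opt_le_card k _
  rw [Nat.card_Icc, Nat.add_sub_cancel] at this
  exact_mod_cast this

/-- the error for all parameters -/
theorem quant (k : ℕ) (c : ℝ) (hc : Tendsto (fun n : ℕ => (gk k n : ℝ) / n) atTop (𝓝 c)) (M r u n : ℕ) (hM : 2 ≤ M) (hn : 1 ≤ n) :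
    |(gk k n : ℝ) / n - c| ≤ 1 / M + (4 * (M : ℝ) ^ 3 / 2 ^ r + 16 * (M : ℝ) ^ (u + 1 + r) / n + 2 * ((M : ℝ) ^ 2 * (2 / 3) ^ u)) := by
  have hPM : ∀ p, p.Prime → p < M → p ∣ PP M := fun p hp h => dvd_PP hp h
  have h1 : Tendsto (fun N : ℕ => |(gk k n : ℝ) / n - (gk k N : ℝ) / N|) atTop (𝓝 |(gk k n : ℝ) / n - c|) :=
    (tendsto_const_nhds.sub hc).abs
  refine le_of_tendsto h1 ?_
  filter_upwards [eventually_ge_atTop n] with N hN
  have h2 := comb k M r u n N hM hn hN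
  have b1 := gk_bounds k (PP M) M n (by omega) hPM
  have b2 := gk_bounds k (PP M) M N (by omega) hPM
  rw [abs_le] at h2 ⊢
  constructor <;> linarith [b1.1, b1.2, b2.1, b2.2, h2.1, h2.2]

theorem params (a n : ℕ) (ha : 1 ≤ a) (hn : 2 ^ (11 * a ^ 2) ≤ n) :
    1 / ((2 ^ a : ℕ) : ℝ) + (4 * ((2 ^ a : ℕ) : ℝ) ^ 3 / 2 ^ (4 * a) + 16 * ((2 ^ a : ℕ) : ℝ) ^ (6 * a + 1 + 4 * a) / n +
      2 * (((2 ^ a : ℕ) : ℝ) ^ 2 * (2 / 3) ^ (6 * a))) ≤ 39 / 2 ^ a := by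
  have h2 : (0 : ℝ) < 2 ^ a := by positivity
  have hnr : (2 : ℝ) ^ (11 * a ^ 2) ≤ n := by exact_mod_cast hn
  have hn0 : (0 : ℝ) < n := lt_of_lt_of_le (by positivity) hnr
  push_cast
  have e1 : 4 * ((2 : ℝ) ^ a) ^ 3 / 2 ^ (4 * a) = 4 / 2 ^ a := by
    rw [div_eq_div_iff (by positivity) (by positivity)]
    rw [← pow_mul, mul_assoc, ← pow_add]
    congr 2
    ring
  have e2 : 16 * ((2 : ℝ) ^ a) ^ (6 * a + 1 + 4 * a) / n ≤ 32 / 2 ^ a := by
    rw [div_le_div_iff₀ hn0 h2]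
    have h3 : (2 : ℝ) ^ (a * (6 * a + 1 + 4 * a) + a) ≤ 2 ^ (11 * a ^ 2 + 1) := by
      refine pow_le_pow_right₀ (by norm_num) ?_
      have h4 : a * (6 * a + 1 + 4 * a) + a = 10 * a ^ 2 + 2 * a := by ring
      rw [h4]
      have h5 : 2 * a ≤ a ^ 2 + 1 := by
        have : 0 ≤ ((a : ℤ) - 1) ^ 2 := sq_nonneg _
        have h6 : (2 * a : ℤ) ≤ (a : ℤ) ^ 2 + 1 := by nlinarith
        exact_mod_cast h6
      omega
    calc 16 * ((2 : ℝ) ^ a) ^ (6 * a + 1 + 4 * a) * 2 ^ a = 16 * 2 ^ (a * (6 * a + 1 + 4 * a) + a) := by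
          rw [← pow_mul, mul_assoc, ← pow_add]
      _ ≤ 16 * 2 ^ (11 * a ^ 2 + 1) := by linarith
      _ = 32 * 2 ^ (11 * a ^ 2) := by rw [pow_succ]; ring
      _ ≤ 32 * n := by linarith
  have e3 : 2 * (((2 : ℝ) ^ a) ^ 2 * (2 / 3) ^ (6 * a)) ≤ 2 / 2 ^ a := by
    rw [le_div_iff₀ h2]
    have h3 : ((2 : ℝ) / 3) ^ (6 * a) ≤ (1 / 8) ^ a := by
      rw [pow_mul]
      exact pow_le_pow_left₀ (by positivity) (by norm_num) a
    have h4 : ((2 : ℝ) ^ a) ^ 2 * (1 / 8) ^ a * 2 ^ a = 1 := by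
      rw [← pow_mul, mul_comm a 2, pow_mul, ← mul_pow, ← mul_pow]
      norm_num
    calc 2 * (((2 : ℝ) ^ a) ^ 2 * (2 / 3) ^ (6 * a)) * 2 ^ a ≤ 2 * (((2 : ℝ) ^ a) ^ 2 * (1 / 8) ^ a) * 2 ^ a := by gcongr
      _ = 2 * (((2 : ℝ) ^ a) ^ 2 * (1 / 8) ^ a * 2 ^ a) := by ring
      _ = 2 := by rw [h4, mul_one]
  rw [e1]
  have e4 : (39 : ℝ) / 2 ^ a = 1 / 2 ^ a + (4 / 2 ^ a + 32 / 2 ^ a + 2 / 2 ^ a) := by ring
  rw [e4]
  linarith

theorem error_term (k : ℕ) (c : ℝ) (hc : Tendsto (fun n : ℕ => (gk k n : ℝ) / n) atTop (𝓝 c)) (n : ℕ) (hn : 1 ≤ n) :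
    |(gk k n : ℝ) - c * n| ≤ 80 * n * Real.exp (-Real.sqrt (Real.log n) / 4) := by
  have hn0 : (0 : ℝ) < n := by exact_mod_cast hn
  have hn1 : (1 : ℝ) ≤ n := by exact_mod_cast hn
  have hL : 0 ≤ Real.log n := Real.log_nonneg hn1
  have hl2 := Real.log_two_gt_d9
  have hl2' := Real.log_two_lt_d9
  -- the integer parameter
  obtain ⟨x, hx⟩ : ∃ x : ℝ, x = Real.sqrt (Real.log n / (11 * Real.log 2)) := ⟨_, rfl⟩
  have hx0 : 0 ≤ x := by
    rw [hx]
    exact Real.sqrt_nonneg _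
  have hx2 : x ^ 2 * (11 * Real.log 2) = Real.log n := by
    rw [hx, Real.sq_sqrt (by positivity)]
    field_simp
  -- the square root of the logarithm
  have hsq : Real.sqrt (Real.log n) = x * Real.sqrt (11 * Real.log 2) := by
    rw [← hx2, Real.sqrt_mul (by positivity), Real.sqrt_sq hx0]
  have hs1 : Real.sqrt (11 * Real.log 2) / 4 ≤ Real.log 2 := by
    rw [div_le_iff₀ (by norm_num)]
    rw [Real.sqrt_le_left (by positivity)]
    nlinarith
  have hexp : (1 / 2 : ℝ) ^ (⌊x⌋₊ + 1) ≤ Real.exp (-Real.sqrt (Real.log n) / 4) := by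
    have h1 : (1 / 2 : ℝ) ^ (⌊x⌋₊ + 1) = Real.exp (-(((⌊x⌋₊ + 1 : ℕ) : ℝ) * Real.log 2)) := by
      rw [← mul_neg, Real.exp_nat_mul, Real.exp_neg, Real.exp_log (by norm_num), one_div]
    rw [h1]
    apply Real.exp_le_exp.2
    have h2 : x ≤ ((⌊x⌋₊ + 1 : ℕ) : ℝ) := by
      push_cast
      exact (Nat.lt_floor_add_one x).le
    rw [hsq, neg_div, neg_le_neg_iff, mul_div_assoc]
    exact mul_le_mul h2 hs1 (by positivity) (by positivity)
  have hpos := Real.exp_pos (-Real.sqrt (Real.log n) / 4)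
  have key : |(gk k n : ℝ) / n - c| ≤ 80 * Real.exp (-Real.sqrt (Real.log n) / 4) := by
    rcases Nat.eq_zero_or_pos ⌊x⌋₊ with h0 | h0
    · rw [h0] at hexp
      have hc0 : 0 ≤ c := ge_of_tendsto' hc fun n => by positivity
      have hc1 : c ≤ 1 := le_of_tendsto' hc fun n => by
        rcases Nat.eq_zero_or_pos n with rfl | hn
        · simp
        · have hnr : (0 : ℝ) < n := by exact_mod_cast hn
          rw [div_le_one hnr]
          exact gk_le_self k n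
      have h1 : (gk k n : ℝ) / n ≤ 1 := by
        rw [div_le_one hn0]
        exact gk_le_self k n
      have h2 : 0 ≤ (gk k n : ℝ) / n := by positivity
      have h3 : |(gk k n : ℝ) / n - c| ≤ 1 := by
        rw [abs_le]
        constructor <;> linarith
      norm_num at hexp
      linarith
    · have hfl : (⌊x⌋₊ : ℝ) ≤ x := Nat.floor_le hx0
      have hn2 : 2 ^ (11 * ⌊x⌋₊ ^ 2) ≤ n := by
        have h1 : (2 : ℝ) ^ (11 * ⌊x⌋₊ ^ 2) ≤ n := by
          have h2 : (2 : ℝ) ^ (11 * ⌊x⌋₊ ^ 2) = Real.exp (((11 * ⌊x⌋₊ ^ 2 : ℕ) : ℝ) * Real.log 2) := by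
            rw [Real.exp_nat_mul, Real.exp_log (by norm_num)]
          rw [h2]
          calc Real.exp (((11 * ⌊x⌋₊ ^ 2 : ℕ) : ℝ) * Real.log 2) ≤ Real.exp (Real.log n) := by
                apply Real.exp_le_exp.2
                rw [← hx2]
                push_cast
                have h3 : (⌊x⌋₊ : ℝ) ^ 2 ≤ x ^ 2 := pow_le_pow_left₀ (Nat.cast_nonneg _) hfl 2
                nlinarith
            _ = n := Real.exp_log hn0
        exact_mod_cast h1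
      have h1 := quant k c hc (2 ^ ⌊x⌋₊) (4 * ⌊x⌋₊) (6 * ⌊x⌋₊) n (by
        calc 2 = 2 ^ 1 := by norm_num
          _ ≤ 2 ^ ⌊x⌋₊ := Nat.pow_le_pow_right (by norm_num) h0) hn
      have h2 := params ⌊x⌋₊ n h0 hn2
      have h3 : (39 : ℝ) / 2 ^ ⌊x⌋₊ = 78 * (1 / 2) ^ (⌊x⌋₊ + 1) := by
        rw [pow_succ, one_div, inv_pow]
        ring
      refine h1.trans (h2.trans ?_)
      rw [h3]
      linarith
  have h1 : (gk k n : ℝ) - c * n = ((gk k n : ℝ) / n - c) * n := by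
    field_simp
  rw [h1, abs_mul, abs_of_pos hn0]
  calc |(gk k n : ℝ) / n - c| * n ≤ (80 * Real.exp (-Real.sqrt (Real.log n) / 4)) * n := mul_le_mul_of_nonneg_right key hn0.le
    _ = 80 * n * Real.exp (-Real.sqrt (Real.log n) / 4) := by ring

/-- the limit theorem with the better error term -/
theorem exists_limit_exp (k : ℕ) :
    ∃ c : ℝ, (∀ n : ℕ, 1 ≤ n → |(gk k n : ℝ) - c * n| ≤ 80 * n * Real.exp (-Real.sqrt (Real.log n) / 4)) ∧
      ∀ M J : ℕ, 1 ≤ M → SS k M J ≤ c ∧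
        c ≤ SS k M J + 1 / M + 2 ^ (M + 1) / Real.sqrt (J + 1) := by
  obtain ⟨c, h1, h2⟩ := exists_limit_quant k
  refine ⟨c, fun n hn => error_term k c ?_ n hn, h2⟩
  rw [tendsto_iff_norm_sub_tendsto_zero]
  have h3 : Tendsto (fun n : ℕ => 100 / Real.log n) atTop (𝓝 0) :=
    (Real.tendsto_log_atTop.comp tendsto_natCast_atTop_atTop).const_div_atTop 100
  refine squeeze_zero' (Eventually.of_forall fun n => norm_nonneg _) ?_ h3
  filter_upwards [eventually_ge_atTop 2] with n hn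
  have hn0 : (0 : ℝ) < n := by
    have : 0 < n := by omega
    exact_mod_cast this
  have h4 := h1 n hn
  have h5 : (gk k n : ℝ) / n - c = ((gk k n : ℝ) - c * n) / n := by
    field_simp
  rw [h5, Real.norm_eq_abs, abs_div, abs_of_pos hn0, div_le_iff₀ hn0]
  refine h4.trans (le_of_eq ?_)
  ring

end Pool.Agent.H36.LD
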