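import Pool.Agent.H36.LD.Brun

/-!
# LD Smooth: sums over the integers with all prime factors below `M`
-/

set_option autoImplicit false

namespace Pool.Agent.H36.LD

open Pool.Agent.H96.KMF Finset

theorem smo_iff {M s : ℕ} : Smo (PP M) s ↔ s ∈ Nat.smoothNumbers M := by
  rw [Nat.mem_smoothNumbers']
  constructor
  · intro h p hp hd
    exact lt_of_dvd_PP hp (h.2 p hp hd)
  · intro h
    refine ⟨?_, fun p hp hd => dvd_PP hp (h p hp hd)⟩
    rintro rfl
    obtain ⟨p, hp, hpp⟩ := Nat.exists_infinite_primes M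
    have := h p hpp (dvd_zero p)
    omega

theorem euler_le (f : ℕ →*₀ ℝ) (h0 : ∀ n, 0 ≤ f n) (h1 : ∀ p : ℕ, p.Prime → f p < 1) (M : ℕ) (S : Finset ℕ)
    (hS : ∀ s ∈ S, Smo (PP M) s) : ∑ s ∈ S, f s ≤ ∏ p ∈ Nat.primesBelow M, (1 - f p)⁻¹ := by
  classical
  have h2 := (EulerProduct.summable_and_hasSum_smoothNumbers_prod_primesBelow_geometric (f := (f : ℕ →* ℝ)) (fun {p} hp => by
    have h3 : ‖f p‖ < 1 := by
      rw [Real.norm_of_nonneg (h0 p)]
      exact h1 p hp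
    exact h3) M).2
  have h3 : ∑ s ∈ S, f s = ∑ m ∈ S.subtype (fun s => s ∈ Nat.smoothNumbers M), f m := by
    rw [sum_subtype_eq_sum_filter, filter_true_of_mem]
    intro s hs
    exact smo_iff.1 (hS s hs)
  rw [h3]
  exact sum_le_hasSum _ (fun m _ => h0 m) h2

/-- `1 / n` -/
noncomputable def f1 : ℕ →*₀ ℝ where
  toFun n := (n : ℝ)⁻¹
  map_zero' := by simp
  map_one' := by simp
  map_mul' a b := by
    push_cast
    rw [mul_inv]

/-- `(3/2)^Ω(n) / n` -/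
noncomputable def f2 : ℕ →*₀ ℝ where
  toFun n := (3 / 2 : ℝ) ^ (ArithmeticFunction.cardFactors n) * (n : ℝ)⁻¹
  map_zero' := by simp
  map_one' := by simp
  map_mul' a b := by
    rcases eq_or_ne a 0 with rfl | ha
    · simp
    rcases eq_or_ne b 0 with rfl | hb
    · simp
    rw [ArithmeticFunction.cardFactors_mul ha hb, pow_add]
    push_cast
    rw [mul_inv]
    ring

theorem f1_apply (n : ℕ) : f1 n = (n : ℝ)⁻¹ := rfl

theorem f2_apply (n : ℕ) : f2 n = (3 / 2 : ℝ) ^ (ArithmeticFunction.cardFactors n) * (n : ℝ)⁻¹ := rfl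

theorem smooth_sum {M : ℕ} (hM : 2 ≤ M) (S : Finset ℕ) (hS : ∀ s ∈ S, Smo (PP M) s) : ∑ s ∈ S, 1 / (s : ℝ) ≤ M := by
  have h1 := euler_le f1 (fun n => by rw [f1_apply]; positivity) (fun p hp => by
    rw [f1_apply]
    have : (2 : ℝ) ≤ p := by exact_mod_cast hp.two_le
    exact inv_lt_one_of_one_lt₀ (by linarith)) M S hS
  have h2 : ∏ p ∈ Nat.primesBelow M, (1 - f1 p)⁻¹ = (rho M)⁻¹ := by
    unfold rho
    rw [← prod_inv_distrib]
    refine prod_congr rfl fun p _ => ?_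
    rw [f1_apply, one_div]
  have h3 : ∑ s ∈ S, 1 / (s : ℝ) = ∑ s ∈ S, f1 s := sum_congr rfl fun s _ => by rw [f1_apply, one_div]
  rw [h3]
  refine h1.trans ?_
  rw [h2, inv_le_iff_one_le_mul₀ (rho_pos M)]
  exact one_le_mul_rho hM

theorem smooth_tail {M : ℕ} (hM : 2 ≤ M) (u : ℕ) (S : Finset ℕ) (hS : ∀ s ∈ S, Smo (PP M) s ∧ M ^ u ≤ s) :
    ∑ s ∈ S, 1 / (s : ℝ) ≤ (M : ℝ) ^ 2 * (2 / 3) ^ u := by
  have hfp : ∀ p : ℕ, p.Prime → f2 p = 3 / 2 * (1 / (p : ℝ)) := by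
    intro p hp
    rw [f2_apply, ArithmeticFunction.cardFactors_apply_prime hp, pow_one, one_div]
  have h1 := euler_le f2 (fun n => by rw [f2_apply]; positivity) (fun p hp => by
    rw [hfp p hp]
    have h2 : (2 : ℝ) ≤ p := by exact_mod_cast hp.two_le
    have h3 : 1 / (p : ℝ) ≤ 1 / 2 := one_div_le_one_div_of_le (by norm_num) h2
    linarith) M S (fun s hs => (hS s hs).1)
  have h2 : ∏ p ∈ Nat.primesBelow M, (1 - f2 p)⁻¹ ≤ (M : ℝ) ^ 2 := by
    have h3 : ∏ p ∈ Nat.primesBelow M, (1 - f2 p)⁻¹ ≤ ∏ p ∈ Nat.primesBelow M, ((1 - 1 / (p : ℝ)) ^ 2)⁻¹ := by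
      refine prod_le_prod (fun p hp => ?_) (fun p hp => ?_)
      · have h4 := pb_two hp
        have h5 : 1 / (p : ℝ) ≤ 1 / 2 := one_div_le_one_div_of_le (by norm_num) h4
        rw [hfp p (Nat.prime_of_mem_primesBelow hp)]
        exact inv_nonneg.2 (by linarith)
      · have h4 := pb_two hp
        have h5 : 1 / (p : ℝ) ≤ 1 / 2 := one_div_le_one_div_of_le (by norm_num) h4
        have h6 : 0 < 1 / (p : ℝ) := by positivity
        rw [hfp p (Nat.prime_of_mem_primesBelow hp)]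
        refine inv_anti₀ (by nlinarith) ?_
        nlinarith
    refine h3.trans ?_
    have h4 : ∏ p ∈ Nat.primesBelow M, ((1 - 1 / (p : ℝ)) ^ 2)⁻¹ = (rho M ^ 2)⁻¹ := by
      unfold rho
      rw [← prod_pow, ← prod_inv_distrib]
    have h5 := rho_pos M
    rw [h4, inv_le_iff_one_le_mul₀ (by positivity), ← mul_pow]
    exact one_le_pow₀ (one_le_mul_rho hM)
  have h3 : ∀ s ∈ S, 1 / (s : ℝ) ≤ (2 / 3 : ℝ) ^ u * f2 s := by
    intro s hs
    obtain ⟨h4, h5⟩ := hS s hs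
    have hs0 : s ≠ 0 := h4.1
    have h6 : s ≤ M ^ (ArithmeticFunction.cardFactors s) := by
      rw [ArithmeticFunction.cardFactors_apply]
      conv_lhs => rw [← Nat.prod_primeFactorsList hs0]
      refine List.prod_le_pow_card _ _ fun p hp => ?_
      have h7 := Nat.prime_of_mem_primeFactorsList hp
      exact (lt_of_dvd_PP h7 (h4.2 p h7 (Nat.dvd_of_mem_primeFactorsList hp))).le
    have h7 : u ≤ ArithmeticFunction.cardFactors s := (Nat.pow_le_pow_iff_right (by omega)).1 (h5.trans h6)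
    rw [f2_apply, ← mul_assoc, one_div]
    refine le_mul_of_one_le_left (by positivity) ?_
    have h8 : (3 / 2 : ℝ) ^ u ≤ (3 / 2 : ℝ) ^ (ArithmeticFunction.cardFactors s) := pow_le_pow_right₀ (by norm_num) h7
    calc (1 : ℝ) = (2 / 3 : ℝ) ^ u * (3 / 2 : ℝ) ^ u := by
          rw [← mul_pow]
          norm_num
      _ ≤ _ := mul_le_mul_of_nonneg_left h8 (by positivity)
  calc ∑ s ∈ S, 1 / (s : ℝ) ≤ ∑ s ∈ S, (2 / 3 : ℝ) ^ u * f2 s := sum_le_sum h3
    _ = (2 / 3 : ℝ) ^ u * ∑ s ∈ S, f2 s := by rw [mul_sum]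
    _ ≤ (2 / 3 : ℝ) ^ u * (M : ℝ) ^ 2 := mul_le_mul_of_nonneg_left (h1.trans h2) (by positivity)
    _ = _ := mul_comm _ _

end Pool.Agent.H36.LD
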